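import Pool.Agent.Helper13_Z3.Defs
import Pool.Agent.Helper85_Idx.Fin

/-!
# Letters of rank three in a group with indexed word problem
-/

set_option autoImplicit false

namespace Pool.Agent.Z3.H20

open Pool.Agent.Idx Pool.Agent.Idx.H48
open Pool.Agent.Z3

theorem sv_cons (t : L3) (w : List L3) (i : Fin 3) : sv vec (t :: w) i = vec t i + sv vec w i := by
  simp [sv, vs]

theorem sv_nil (i : Fin 3) : sv vec [] i = 0 := by
  simp [sv, vs]

theorem val_evz (w : List L3) : val evz w = Multiplicative.ofAdd (sv vec w) := by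
  induction w with
  | nil =>
    have : sv vec [] = 0 := by
      funext i
      exact sv_nil i
    rw [this]
    simp [val]
  | cons t w ih =>
    have h2 : val evz (t :: w) = evz t * val evz w := by simp [val]
    have h3 : sv vec (t :: w) = vec t + sv vec w := by
      funext i
      exact sv_cons t w i
    rw [h2, h3, ih, ofAdd_add]
    rfl

theorem val_abc {G : Type} [Group G] (a b c : G) (hab : Commute a b) (hac : Commute a c)
    (hbc : Commute b c) (w : List L3) :
    val (fun t => a ^ (vec t 0) * b ^ (vec t 1) * c ^ (vec t 2)) w =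
      a ^ (sv vec w 0) * b ^ (sv vec w 1) * c ^ (sv vec w 2) := by
  induction w with
  | nil =>
    rw [sv_nil, sv_nil, sv_nil]
    simp [val]
  | cons t w ih =>
    have h2 : val (fun t => a ^ (vec t 0) * b ^ (vec t 1) * c ^ (vec t 2)) (t :: w) =
        (a ^ (vec t 0) * b ^ (vec t 1) * c ^ (vec t 2)) *
        val (fun t => a ^ (vec t 0) * b ^ (vec t 1) * c ^ (vec t 2)) w := by simp [val]
    rw [h2, ih, sv_cons, sv_cons, sv_cons, zpow_add, zpow_add, zpow_add]
    have e1 : ∀ i j : ℤ, Commute (b ^ i) (a ^ j) := fun i j => (hab.symm.zpow_zpow i j)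
    have e2 : ∀ i j : ℤ, Commute (c ^ i) (a ^ j) := fun i j => (hac.symm.zpow_zpow i j)
    have e3 : ∀ i j : ℤ, Commute (c ^ i) (b ^ j) := fun i j => (hbc.symm.zpow_zpow i j)
    obtain ⟨x, hx⟩ : ∃ x, x = a ^ (vec t 0) := ⟨_, rfl⟩
    obtain ⟨y, hy⟩ : ∃ y, y = b ^ (vec t 1) := ⟨_, rfl⟩
    obtain ⟨z, hz⟩ : ∃ z, z = c ^ (vec t 2) := ⟨_, rfl⟩
    obtain ⟨x', hx'⟩ : ∃ x', x' = a ^ (sv vec w 0) := ⟨_, rfl⟩
    obtain ⟨y', hy'⟩ : ∃ y', y' = b ^ (sv vec w 1) := ⟨_, rfl⟩
    obtain ⟨z', hz'⟩ : ∃ z', z' = c ^ (sv vec w 2) := ⟨_, rfl⟩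
    rw [← hx, ← hy, ← hz, ← hx', ← hy', ← hz']
    have c1 : z * x' = x' * z := by rw [hz, hx']; exact e2 _ _
    have c2 : y * x' = x' * y := by rw [hy, hx']; exact e1 _ _
    have c3 : z * y' = y' * z := by rw [hz, hy']; exact e3 _ _
    calc x * y * z * (x' * y' * z') = x * y * (z * x') * y' * z' := by group
      _ = x * y * (x' * z) * y' * z' := by rw [c1]
      _ = x * (y * x') * (z * y') * z' := by group
      _ = x * (x' * y) * (y' * z) * z' := by rw [c2, c3]
      _ = x * x' * (y * y') * (z * z') := by group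

theorem vec_ne (t : L3) : ¬ (vec t 0 = 0 ∧ vec t 1 = 0 ∧ vec t 2 = 0) := by
  rcases t with b | ⟨k, s⟩
  · cases b <;> simp [vec]
  · simp [vec]

theorem grp (hN : NormStmt) (hC : ClosStmt) : GrpStmt := by
  intro G _ ι g hg hI a b c hab hac hbc hfree
  obtain ⟨ev, hevd⟩ : ∃ ev : L3 → G, ev = fun t => a ^ (vec t 0) * b ^ (vec t 1) * c ^ (vec t 2) :=
    ⟨_, rfl⟩
  have hev : ∀ t, ev t ≠ 1 := by
    intro t ht
    rw [hevd] at ht
    exact vec_ne t (hfree _ _ _ ht)
  obtain ⟨Γ, hΓ⟩ := H85.exists_gram hN hC g hg hI (T' := L3) inferInstance ev hev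
  refine ⟨Γ, ?_⟩
  rw [hΓ]
  ext w
  show val ev w = 1 ↔ val evz w = 1
  rw [hevd, val_abc a b c hab hac hbc, val_evz]
  constructor
  · intro h
    obtain ⟨h0, h1, h2⟩ := hfree _ _ _ h
    have : sv vec w = 0 := by
      funext i
      fin_cases i
      · exact h0
      · exact h1
      · exact h2
    rw [this]
    rfl
  · intro h
    have h' : sv vec w = 0 := by
      have := congrArg Multiplicative.toAdd h
      simpa using this
    rw [h']
    simp

end Pool.Agent.Z3.H20
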