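import Pool.Agent.Helper20_Z3.Geo2
import Pool.Agent.Helper20_Z3.Grp

/-!
# Geometry of the word, GEO
-/

set_option autoImplicit false

namespace Pool.Agent.Z3.H20

open Pool.Agent.Idx Pool.Agent.Idx.H48
open Pool.Agent.Z3

theorem sum_left (n : ℕ) (sgn : ℕ → ℤ) (s t : ℕ) (hst : s ≤ t) (ht : t ≤ n) :
    (∑ j ∈ Finset.Ico s t, vec (wl n sgn j) 0 = -((t : ℤ) - s)) ∧
    (∑ j ∈ Finset.Ico s t, vec (wl n sgn j) 1 = 0) ∧
    (∑ j ∈ Finset.Ico s t, vec (wl n sgn j) 2 = 0) := by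
  have hw : ∀ j ∈ Finset.Ico s t, wl n sgn j = Sum.inl false := by
    intro j hj
    rw [Finset.mem_Ico] at hj
    unfold wl
    rw [if_pos (by omega)]
  refine ⟨?_, ?_, ?_⟩
  · rw [Finset.sum_congr rfl (fun j hj => by rw [hw j hj])]
    simp only [vec, Matrix.cons_val_zero, Finset.sum_const, Nat.card_Ico, smul_eq_mul, nsmul_eq_mul]
    rw [Nat.cast_sub hst]
    ring
  · rw [Finset.sum_congr rfl (fun j hj => by rw [hw j hj])]
    simp [vec]
  · rw [Finset.sum_congr rfl (fun j hj => by rw [hw j hj])]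
    simp [vec]

theorem sum_mid (n : ℕ) (sgn : ℕ → ℤ) (s t : ℕ) (hst : s ≤ t) (hs : n ≤ s) (ht : t ≤ 3 * n) :
    (∑ j ∈ Finset.Ico s t, vec (wl n sgn j) 0 = 0) ∧
    (∑ j ∈ Finset.Ico s t, vec (wl n sgn j) 1 = -((t : ℤ) - s)) ∧
    (∑ j ∈ Finset.Ico s t, vec (wl n sgn j) 2 = 0) := by
  have hw : ∀ j ∈ Finset.Ico s t, wl n sgn j = Sum.inl true := by
    intro j hj
    rw [Finset.mem_Ico] at hj
    unfold wl
    rw [if_neg (by omega), if_pos (by omega)]
  refine ⟨?_, ?_, ?_⟩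
  · rw [Finset.sum_congr rfl (fun j hj => by rw [hw j hj])]
    simp [vec]
  · rw [Finset.sum_congr rfl (fun j hj => by rw [hw j hj])]
    simp only [vec, Matrix.cons_val_one, Matrix.cons_val_zero, Finset.sum_const, Nat.card_Ico,
      smul_eq_mul, nsmul_eq_mul]
    rw [Nat.cast_sub hst]
    ring
  · rw [Finset.sum_congr rfl (fun j hj => by rw [hw j hj])]
    simp [vec]

/-- the third coordinate on the curved side -/
theorem sum_curve2 (n : ℕ) (sgn : ℕ → ℤ) (hs : ∀ p, sgn p = 1 ∨ sgn p = -1) (y : ℕ)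
    (hy : y ≤ n) : ∑ j ∈ Finset.Ico (3 * n) (3 * n + y), vec (wl n sgn j) 2 =
      ∑ p ∈ Finset.range y, sgn p := by
  induction y with
  | zero => simp
  | succ y ih =>
    have hw : wl n sgn (3 * n + y) = cl n sgn y := by
      unfold wl
      rw [if_neg (by omega), if_neg (by omega)]
      congr 1
      omega
    have e : 3 * n + (y + 1) = (3 * n + y) + 1 := by omega
    rw [e, Finset.sum_Ico_succ_top (by omega), Finset.sum_range_succ, ih (by omega), hw,
      (vec_cl n sgn y (by omega) (hs y)).2.2]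

/-- values of the prefixes -/
theorem prefix_val (n : ℕ) (sgn : ℕ → ℤ) (hs : ∀ p, sgn p = 1 ∨ sgn p = -1) (x : ℕ)
    (hx : x ≤ 4 * n) :
    (∑ j ∈ Finset.Ico 0 x, vec (wl n sgn j) 0 =
      -((min x n : ℕ) : ℤ) + ((max x (3 * n) - 3 * n : ℕ) : ℤ)) ∧
    (∑ j ∈ Finset.Ico 0 x, vec (wl n sgn j) 1 =
      -((max n (min x (3 * n)) - n : ℕ) : ℤ) + ((max x (3 * n) - 3 * n : ℕ) : ℤ) +
        (((max x (3 * n) - 3 * n) ^ 2 / n : ℕ) : ℤ)) := by
  rcases le_total x n with h1 | h1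
  · obtain ⟨a0, a1, -⟩ := sum_left n sgn 0 x (Nat.zero_le _) h1
    rw [a0, a1, min_eq_left h1, min_eq_left (by omega : x ≤ 3 * n), max_eq_left h1,
      max_eq_right (by omega : x ≤ 3 * n)]
    simp
  · obtain ⟨a0, a1, -⟩ := sum_left n sgn 0 n (Nat.zero_le _) le_rfl
    rcases le_total x (3 * n) with h2 | h2
    · obtain ⟨b0, b1, -⟩ := sum_mid n sgn n x h1 le_rfl h2
      rw [← Finset.sum_Ico_consecutive _ (Nat.zero_le n) h1,
        ← Finset.sum_Ico_consecutive _ (Nat.zero_le n) h1, a0, a1, b0, b1, min_eq_right h1,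
        min_eq_left h2, max_eq_right h1, max_eq_right h2]
      constructor
      · simp
      · rw [Nat.cast_sub h1]
        simp
    · obtain ⟨b0, b1, -⟩ := sum_mid n sgn n (3 * n) (by omega) le_rfl le_rfl
      obtain ⟨y, rfl⟩ : ∃ y, x = 3 * n + y := ⟨x - 3 * n, by omega⟩
      obtain ⟨c0, c1⟩ := sum_curve n sgn hs 0 y (Nat.zero_le _) (by omega)
      rw [Nat.add_zero] at c0 c1
      rw [← Finset.sum_Ico_consecutive _ (Nat.zero_le n) h1,
        ← Finset.sum_Ico_consecutive _ (Nat.zero_le n) h1,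
        ← Finset.sum_Ico_consecutive _ (by omega : n ≤ 3 * n) h2,
        ← Finset.sum_Ico_consecutive _ (by omega : n ≤ 3 * n) h2, a0, a1, b0, b1, c0, c1,
        min_eq_right h1, min_eq_right h2, max_eq_right (by omega : n ≤ 3 * n), max_eq_left h2]
      have e : 3 * n + y - 3 * n = y := by omega
      rw [e]
      constructor
      · simp
      · rw [Nat.cast_sub (by omega : n ≤ 3 * n)]
        push_cast
        simp
        ring

theorem sl_val (n : ℕ) (sgn : ℕ → ℤ) (s t : ℕ) (hst : s ≤ t) (ht : t ≤ 4 * n) (i : Fin 3) :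
    sv vec (sl (W n sgn) s t) i = ∑ j ∈ Finset.Ico 0 t, vec (wl n sgn j) i -
      ∑ j ∈ Finset.Ico 0 s, vec (wl n sgn j) i := by
  rw [sv_sl n sgn s t hst ht,
    ← Finset.sum_Ico_consecutive (fun j => vec (wl n sgn j) i) (Nat.zero_le s) hst]
  ring

/-- increments of the parabola -/
theorem sq_div_le (n : ℕ) (x y : ℕ) (hxy : x ≤ y) (hy : y ≤ n) :
    y ^ 2 / n ≤ x ^ 2 / n + 2 * (y - x) ∧ x ^ 2 / n ≤ y ^ 2 / n := by
  induction y, hxy using Nat.le_induction with
  | base => simp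
  | succ y hxy ih =>
    obtain ⟨h1, h2⟩ := ih (by omega)
    have h3 := kf_le n y (by omega)
    have h4 := kf_mono n y
    unfold kf at h3
    constructor <;> omega

/-- G1 -/
theorem g1 (n : ℕ) (sgn : ℕ → ℤ) (hn : 1 ≤ n) (hs : ∀ p, sgn p = 1 ∨ sgn p = -1)
    (M s t : ℕ) (hst : s ≤ t) (ht : t ≤ 4 * n)
    (h0 : |sv vec (sl (W n sgn) s t) 0| ≤ M) (h1 : |sv vec (sl (W n sgn) s t) 1| ≤ M)
    (h5 : 5 * M < t - s) : s < n ∧ 3 * n < t ∧ 4 * n ≤ t + M := by
  rw [sl_val n sgn s t hst ht] at h0 h1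
  obtain ⟨a0, a1⟩ := prefix_val n sgn hs s (by omega)
  obtain ⟨b0, b1⟩ := prefix_val n sgn hs t ht
  rw [a0, b0] at h0
  rw [a1, b1] at h1
  obtain ⟨x, hx⟩ : ∃ x, x = max s (3 * n) - 3 * n := ⟨_, rfl⟩
  obtain ⟨y, hy⟩ : ∃ y, y = max t (3 * n) - 3 * n := ⟨_, rfl⟩
  rw [← hx, ← hy] at h0 h1
  have hxy : x ≤ y := by omega
  have hyn : y ≤ n := by omega
  obtain ⟨c1, c2⟩ := sq_div_le n x y hxy hyn
  obtain ⟨A, hA⟩ : ∃ A, A = x ^ 2 / n := ⟨_, rfl⟩
  obtain ⟨B, hB⟩ : ∃ B, B = y ^ 2 / n := ⟨_, rfl⟩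
  have c3 : B ≤ n := by
    rw [hB]
    have : y ^ 2 ≤ n * n := by
      rw [sq]
      exact Nat.mul_le_mul hyn hyn
    exact (Nat.div_le_div_right this).trans (by rw [Nat.mul_div_cancel _ (by omega : 0 < n)])
  have c4 : x = 0 → A = 0 := by
    intro h
    rw [hA, h]
    simp
  rw [← hA, ← hB] at h1 c1 c2
  rw [abs_le] at h0 h1
  obtain ⟨h0a, h0b⟩ := h0
  obtain ⟨h1a, h1b⟩ := h1
  omega

theorem W_length (n : ℕ) (sgn : ℕ → ℤ) : (W n sgn).length = 4 * n := by
  simp [W]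

theorem geo : GeoStmt := by
  intro n sgn hn hs
  refine ⟨W_length n sgn, ?_, ?_, ?_, ?_, ?_, ?_, ?_⟩
  · intro t i
    rcases t with b | ⟨k, s⟩
    · cases b <;> fin_cases i <;> simp [vec]
    · have hk := k.2
      fin_cases i
      · simp [vec]
      · simp only [vec]
        have : (0 : ℤ) ≤ k.val := Int.natCast_nonneg _
        have h3 : (k.val : ℤ) ≤ 2 := by omega
        show |(k.val : ℤ) + 1| ≤ 3
        rw [abs_le]
        constructor <;> linarith
      · cases s <;> simp [vec]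
  · intro i j hj
    unfold vat W
    rw [List.getElem?_map, List.getElem?_range hj]
    rfl
  · intro p hp
    have hw : wl n sgn (3 * n + p) = cl n sgn p := by
      unfold wl
      rw [if_neg (by omega), if_neg (by omega)]
      congr 1
      omega
    obtain ⟨v0, v1, v2⟩ := vec_cl n sgn p hp (hs p)
    rw [hw, v0, v1, v2]
    refine ⟨rfl, ?_, rfl⟩
    have : (0 : ℤ) ≤ kf n p := Int.natCast_nonneg _
    linarith
  · intro hsum
    have hW : sl (W n sgn) 0 (4 * n) = W n sgn := by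
      unfold sl
      rw [List.drop_zero, Nat.sub_zero]
      exact List.take_of_length_le (by rw [W_length])
    have h4 : 3 * n ≤ 4 * n := by omega
    obtain ⟨b0, b1⟩ := prefix_val n sgn hs (4 * n) le_rfl
    funext i
    rw [← hW, sv_sl n sgn 0 (4 * n) (Nat.zero_le _) le_rfl]
    fin_cases i
    · refine b0.trans ?_
      rw [min_eq_right (by omega), max_eq_left h4]
      have : 4 * n - 3 * n = n := by omega
      rw [this]
      simp
    · refine b1.trans ?_
      rw [min_eq_right h4, max_eq_right (by omega), max_eq_left h4]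
      have e1 : 4 * n - 3 * n = n := by omega
      have e2 : 3 * n - n = 2 * n := by omega
      have e3 : n ^ 2 / n = n := by
        rw [sq]
        exact Nat.mul_div_cancel _ (by omega)
      rw [e1, e2, e3]
      push_cast
      simp
      ring
    · show ∑ j ∈ Finset.Ico 0 (4 * n), vec (wl n sgn j) 2 = 0
      obtain ⟨-, -, a2⟩ := sum_left n sgn 0 n (Nat.zero_le _) le_rfl
      obtain ⟨-, -, c2⟩ := sum_mid n sgn n (3 * n) (by omega) le_rfl le_rfl
      have d2 := sum_curve2 n sgn hs n le_rfl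
      have e4 : 3 * n + n = 4 * n := by omega
      rw [e4, hsum] at d2
      rw [← Finset.sum_Ico_consecutive _ (Nat.zero_le n) (by omega : n ≤ 4 * n),
        ← Finset.sum_Ico_consecutive _ (by omega : n ≤ 3 * n) h4, a2, c2, d2]
      simp
  · intro w w'
    rw [val_evz, val_evz]
    constructor
    · intro h
      exact Multiplicative.ofAdd.injective h
    · intro h
      rw [h]
  · intro M s t h1 h2 h3 h4 h5
    exact g1 n sgn hn hs M s t h1 h2 h3 h4 h5
  · intro s t s' t' h1 h2 h3 h4 h5 h6 h7 h8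
    exact g2 n sgn hn hs s t s' t' h1 h2 h3 h4 h5 h6 h7 h8

end Pool.Agent.Z3.H20
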