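import Pool.Agent.Helper13_Z3.Defs

/-!
# Geometry of the word
-/

set_option autoImplicit false

namespace Pool.Agent.Z3.H20

open Pool.Agent.Idx Pool.Agent.Idx.H48
open Pool.Agent.Z3

theorem sum_range' (f : ℕ → ℤ) (s m : ℕ) :
    ((List.range' s m).map f).sum = ∑ j ∈ Finset.Ico s (s + m), f j := by
  induction m generalizing s with
  | zero => simp
  | succ m ih =>
    rw [List.range'_succ, List.map_cons, List.sum_cons, ih,
      Finset.sum_eq_sum_Ico_succ_bot (show s < s + (m + 1) by omega),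
      show s + 1 + m = s + (m + 1) by omega]

/-- sums of values of intervals -/
theorem sv_sl (n : ℕ) (sgn : ℕ → ℤ) (s t : ℕ) (hst : s ≤ t) (ht : t ≤ 4 * n) (i : Fin 3) :
    sv vec (sl (W n sgn) s t) i = ∑ j ∈ Finset.Ico s t, vec (wl n sgn j) i := by
  unfold sv vs sl W
  rw [← List.map_drop, ← List.map_take, List.map_map, List.range_eq_range', List.drop_range',
    List.take_range'_of_length_ge (by omega)]
  have := sum_range' ((fun t => vec t i) ∘ wl n sgn) (0 + s * 1) (t - s)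
  simp only [Nat.mul_one, Nat.zero_add, Function.comp_apply] at this ⊢
  rw [show s + (t - s) = t by omega] at this
  exact this

theorem kf_le (n p : ℕ) (hp : p < n) : kf n p ≤ 2 := by
  unfold kf
  have hn : 0 < n := by omega
  have h1 : (p + 1) ^ 2 ≤ p ^ 2 + 2 * n - 1 := by
    have : (p + 1) ^ 2 = p ^ 2 + 2 * p + 1 := by ring
    omega
  have h2 : (p + 1) ^ 2 / n ≤ (p ^ 2 + 2 * n) / n :=
    Nat.div_le_div_right (h1.trans (Nat.sub_le _ _))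
  rw [Nat.add_mul_div_right _ _ hn] at h2
  omega

theorem vec_cl (n : ℕ) (sgn : ℕ → ℤ) (p : ℕ) (hp : p < n) (hs : sgn p = 1 ∨ sgn p = -1) :
    vec (cl n sgn p) 0 = 1 ∧ vec (cl n sgn p) 1 = (kf n p : ℤ) + 1 ∧ vec (cl n sgn p) 2 = sgn p := by
  have h := kf_le n p hp
  refine ⟨?_, ?_, ?_⟩
  · simp [cl, vec]
  · simp only [cl, vec]
    simp only [Matrix.cons_val_one, Matrix.cons_val_zero]
    rw [min_eq_left h]
  · rcases hs with h1 | h1 <;> simp [cl, vec, h1]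

theorem kf_mono (n p : ℕ) : p ^ 2 / n ≤ (p + 1) ^ 2 / n :=
  Nat.div_le_div_right (Nat.pow_le_pow_left (Nat.le_succ p) 2)

/-- the curved side -/
theorem sum_curve (n : ℕ) (sgn : ℕ → ℤ) (hs : ∀ p, sgn p = 1 ∨ sgn p = -1) (x y : ℕ)
    (hxy : x ≤ y) (hy : y ≤ n) :
    (∑ j ∈ Finset.Ico (3 * n + x) (3 * n + y), vec (wl n sgn j) 0 = (y : ℤ) - x) ∧
    (∑ j ∈ Finset.Ico (3 * n + x) (3 * n + y), vec (wl n sgn j) 1 =
      ((y : ℤ) - x) + (((y ^ 2 / n : ℕ) : ℤ) - ((x ^ 2 / n : ℕ) : ℤ))) := by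
  induction y, hxy using Nat.le_induction with
  | base => simp
  | succ y hxy ih =>
    obtain ⟨i1, i2⟩ := ih (by omega)
    have hw : wl n sgn (3 * n + y) = cl n sgn y := by
      unfold wl
      rw [if_neg (by omega), if_neg (by omega)]
      congr 1
      omega
    obtain ⟨v0, v1, -⟩ := vec_cl n sgn y (by omega) (hs y)
    have e : 3 * n + (y + 1) = (3 * n + y) + 1 := by omega
    rw [e, Finset.sum_Ico_succ_top (by omega), Finset.sum_Ico_succ_top (by omega), i1, i2, hw, v0,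
      v1]
    refine ⟨by push_cast; ring, ?_⟩
    have hk : ((kf n y : ℕ) : ℤ) = (((y + 1) ^ 2 / n : ℕ) : ℤ) - ((y ^ 2 / n : ℕ) : ℤ) := by
      unfold kf
      rw [Nat.cast_sub (kf_mono n y)]
    rw [hk]
    push_cast
    ring

/-- G2 -/
theorem g2 (n : ℕ) (sgn : ℕ → ℤ) (hn : 1 ≤ n) (hs : ∀ p, sgn p = 1 ∨ sgn p = -1)
    (s t s' t' : ℕ) (h1 : 3 * n ≤ s) (h2 : s ≤ s') (h3 : s ≤ t) (h4 : t ≤ 4 * n) (h5 : s' ≤ t')
    (h6 : t' ≤ 4 * n)
    (h7 : sv vec (sl (W n sgn) s t) 0 = sv vec (sl (W n sgn) s' t') 0)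
    (h8 : sv vec (sl (W n sgn) s t) 1 = sv vec (sl (W n sgn) s' t') 1) :
    t - s = t' - s' ∧ (s' - s) * (t - s) < n := by
  rw [sv_sl n sgn s t h3 h4, sv_sl n sgn s' t' h5 h6] at h7 h8
  obtain ⟨x, rfl⟩ : ∃ x, s = 3 * n + x := ⟨s - 3 * n, by omega⟩
  obtain ⟨y, rfl⟩ : ∃ y, t = 3 * n + y := ⟨t - 3 * n, by omega⟩
  obtain ⟨x', rfl⟩ : ∃ x', s' = 3 * n + x' := ⟨s' - 3 * n, by omega⟩
  obtain ⟨y', rfl⟩ : ∃ y', t' = 3 * n + y' := ⟨t' - 3 * n, by omega⟩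
  obtain ⟨a1, a2⟩ := sum_curve n sgn hs x y (by omega) (by omega)
  obtain ⟨b1, b2⟩ := sum_curve n sgn hs x' y' (by omega) (by omega)
  rw [a1, b1] at h7
  rw [a2, b2] at h8
  have hm : y - x = y' - x' := by omega
  refine ⟨by omega, ?_⟩
  obtain ⟨m, hm1, hm2⟩ : ∃ m, y = x + m ∧ y' = x' + m := ⟨y - x, by omega, by omega⟩
  subst hm1 hm2
  obtain ⟨d, rfl⟩ : ∃ d, x' = x + d := ⟨x' - x, by omega⟩
  have e1 : 3 * n + (x + d) - (3 * n + x) = d := by omega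
  have e2 : 3 * n + (x + m) - (3 * n + x) = m := by omega
  rw [e1, e2]
  have q1 := Nat.div_add_mod ((x + m) ^ 2) n
  have q2 := Nat.div_add_mod (x ^ 2) n
  have q3 := Nat.div_add_mod ((x + d + m) ^ 2) n
  have q4 := Nat.div_add_mod ((x + d) ^ 2) n
  have r1 := Nat.mod_lt ((x + m) ^ 2) (by omega : n > 0)
  have r2 := Nat.mod_lt (x ^ 2) (by omega : n > 0)
  have r3 := Nat.mod_lt ((x + d + m) ^ 2) (by omega : n > 0)
  have r4 := Nat.mod_lt ((x + d) ^ 2) (by omega : n > 0)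
  obtain ⟨A, hA⟩ : ∃ A, A = (x + m) ^ 2 / n := ⟨_, rfl⟩
  obtain ⟨B, hB⟩ : ∃ B, B = x ^ 2 / n := ⟨_, rfl⟩
  obtain ⟨C, hC⟩ : ∃ C, C = (x + d + m) ^ 2 / n := ⟨_, rfl⟩
  obtain ⟨D, hD⟩ : ∃ D, D = (x + d) ^ 2 / n := ⟨_, rfl⟩
  rw [← hA] at q1 h8
  rw [← hB] at q2 h8
  rw [← hC] at q3 h8
  rw [← hD] at q4 h8
  have h9 : (A : ℤ) - B = C - D := by
    push_cast at h8
    linarith
  have h10 : (n : ℤ) * (A - B) = n * (C - D) := by rw [h9]
  have q1' : (n : ℤ) * A + (((x + m) ^ 2 % n : ℕ) : ℤ) = ((x : ℤ) + m) ^ 2 := by exact_mod_cast q1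
  have q2' : (n : ℤ) * B + ((x ^ 2 % n : ℕ) : ℤ) = (x : ℤ) ^ 2 := by exact_mod_cast q2
  have q3' : (n : ℤ) * C + (((x + d + m) ^ 2 % n : ℕ) : ℤ) = ((x : ℤ) + d + m) ^ 2 := by
    exact_mod_cast q3
  have q4' : (n : ℤ) * D + (((x + d) ^ 2 % n : ℕ) : ℤ) = ((x : ℤ) + d) ^ 2 := by exact_mod_cast q4
  have hfin : 2 * ((d : ℤ) * m) < 2 * n := by
    have e3 : 2 * ((d : ℤ) * m) = (((x : ℤ) + d + m) ^ 2 - ((x : ℤ) + d) ^ 2) -
        (((x : ℤ) + m) ^ 2 - (x : ℤ) ^ 2) := by ring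
    rw [e3, ← q1', ← q2', ← q3', ← q4']
    have s1 : ((((x + m) ^ 2 % n : ℕ) : ℤ)) ≥ 0 := Int.natCast_nonneg _
    have s4 : ((((x + d) ^ 2 % n : ℕ) : ℤ)) ≥ 0 := Int.natCast_nonneg _
    have s2 : ((x ^ 2 % n : ℕ) : ℤ) < n := by exact_mod_cast r2
    have s3 : (((x + d + m) ^ 2 % n : ℕ) : ℤ) < n := by exact_mod_cast r3
    linarith
  have : (d : ℤ) * m < n := by linarith
  exact_mod_cast this

end Pool.Agent.Z3.H20
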