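import Pool.Agent.Helper13_Z3.Defs
import Pool.Agent.Helper85_Idx.Sgl

/-!
# Few long items of small length on the curved side
-/

set_option autoImplicit false

namespace Pool.Agent.Z3.H20

open Pool.Agent.Idx Pool.Agent.Idx.H48
open Pool.Agent.Z3

theorem sl_mid {T : Type} (P u Z : List T) :
    sl (P ++ u ++ Z) P.length (P.length + u.length) = u := by
  unfold sl
  simp

theorem abs_vs_le {T : Type} (v : T → ℤ) (hv : ∀ t, |v t| ≤ 3) (u : List T) :
    |vs v u| ≤ 3 * (u.length : ℤ) := by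
  induction u with
  | nil => simp [vs]
  | cons x u ih =>
    have e : vs v (x :: u) = v x + vs v u := by simp [vs]
    rw [e, List.length_cons]
    push_cast
    have := abs_add_le (v x) (vs v u)
    linarith [hv x]

theorem cnt_le_card (μ : ℕ → Bool) (n : ℕ) (F : Finset ℕ) (h : ∀ p, p < n → μ p = true → p ∈ F) :
    cnt μ n ≤ (F.card : ℤ) := by
  unfold cnt
  rw [Finset.sum_boole]
  have : ((Finset.range n).filter (fun p => μ p = true)).card ≤ F.card := by
    apply Finset.card_le_card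
    intro p hp
    rw [Finset.mem_filter, Finset.mem_range] at hp
    exact h p hp.1 hp.2
  exact_mod_cast this

/-- location of an item in the word -/
theorem At_sl {T G : Type} [Group G] {ev : T → G} {Γ : Gram T} {w : List T} {s : ℕ} {A : Γ.N}
    {f : Γ.F} {σ : List Γ.F} {c : List (Item Γ)} (h : Nd ev Γ w s A f σ c) {s' : ℕ} {E : Γ.N}
    {u : List T} (hAt : At s c s' E u) :
    sl w s' (s' + u.length) = u ∧ s' + u.length ≤ w.length ∧ ∃ b, Sum.inr (E, u, b) ∈ c := by
  obtain ⟨P, Z, hw, hP⟩ := h.loc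
  obtain ⟨c₁, c₂, b, hc, hs'⟩ := hAt
  have e : w = (P ++ flat c₁) ++ u ++ (flat c₂ ++ Z) := by
    rw [hw, hc]
    simp [iword]
  have e2 : s' = (P ++ flat c₁).length := by
    rw [hs', List.length_append, hP]
  refine ⟨?_, ?_, b, ?_⟩
  · rw [e, e2]
    exact sl_mid _ _ _
  · rw [e, e2]
    simp only [List.length_append]
    omega
  · rw [hc]
    simp

theorem win (hC : CvlStmt) (hG : GeoStmt) : WinStmt := by
  classical
  intro Γ k n R Q sgn s A f σ c b hk hn hsgn hNd hlong hQR
  have := Γ.finN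
  have := Fintype.ofFinite Γ.N
  have hk' : Fintype.card Γ.N = k := by rw [← hk, Nat.card_eq_fintype_card]
  obtain ⟨gL, gV, -, -, -, gW, -, gG2⟩ := hG n sgn hn hsgn
  -- the starts of the items
  obtain ⟨St, hSt⟩ : ∃ St : Γ.N → Set ℕ, St = fun E => {s' | ∃ u, At s c s' E u ∧ 3 * n ≤ s' ∧
    u.length < R ∧ b u = true} := ⟨_, rfl⟩
  obtain ⟨F, hF⟩ : ∃ F : Finset ℕ, F = Finset.range R ∪ Finset.univ.biUnion
    (fun E : Γ.N => Finset.Ico (sInf (St E) - 3 * n) (sInf (St E) - 3 * n + 2 * R)) := ⟨_, rfl⟩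
  have hFc : F.card ≤ R + k * (2 * R) := by
    rw [hF]
    refine (Finset.card_union_le _ _).trans ?_
    rw [Finset.card_range]
    apply Nat.add_le_add_left
    refine Finset.card_biUnion_le.trans ?_
    have : ∀ E ∈ (Finset.univ : Finset Γ.N),
        (Finset.Ico (sInf (St E) - 3 * n) (sInf (St E) - 3 * n + 2 * R)).card ≤ 2 * R := by
      intro E _
      rw [Nat.card_Ico]
      omega
    refine (Finset.sum_le_sum this).trans ?_
    rw [Finset.sum_const, Finset.card_univ, hk', smul_eq_mul]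
  -- two items of the same nonterminal
  have key : ∀ (E : Γ.N) (s₁ s₂ : ℕ) (u₁ u₂ : List L3), At s c s₁ E u₁ → At s c s₂ E u₂ →
      3 * n ≤ s₁ → s₁ ≤ s₂ → b u₁ = true → s₂ < s₁ + R := by
    intro E s₁ s₂ u₁ u₂ h₁ h₂ h3 h12 hb
    obtain ⟨a1, a2, b₁, a3⟩ := At_sl hNd h₁
    obtain ⟨c1, c2, b₂, c3⟩ := At_sl hNd h₂
    rw [gL] at a2 c2
    have hval := H85.sgl L3 V3 inferInstance evz Γ A f σ c hNd.der hNd.fill hNd.one E u₁ b₁ a3 u₂
      (hNd.fill E u₂ b₂ c3)
    have hsv := (gW u₂ u₁).1 hval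
    have hg := gG2 s₁ (s₁ + u₁.length) s₂ (s₂ + u₂.length) h3 h12 (by omega) (by omega) (by omega)
      (by omega) (by rw [a1, c1, hsv]) (by rw [a1, c1, hsv])
    obtain ⟨i, hi⟩ := hlong E u₁ b₁ a3 hb
    have hlen := abs_vs_le (fun t => vec t i) (fun t => gV t i) u₁
    have hsv2 : |sv vec u₁ i| ≤ 3 * (u₁.length : ℤ) := hlen
    have hQl : Q < u₁.length := by
      have : (3 * Q : ℤ) < 3 * (u₁.length : ℤ) := lt_of_lt_of_le hi hsv2
      omega
    by_contra hcon
    push Not at hcon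
    have h4 : (s₂ - s₁) * (s₁ + u₁.length - s₁) < n := hg.2
    have h5 : R * Q ≤ (s₂ - s₁) * (s₁ + u₁.length - s₁) := Nat.mul_le_mul (by omega) (by omega)
    have h6 : R * Q = Q * R := Nat.mul_comm _ _
    omega
  have hmain : cnt (fun p => cv (big R) s c (3 * n + p) &&
      !(cv (fun _ u => b u) s c (3 * n + p))) n ≤ (F.card : ℤ) := by
    apply cnt_le_card
    intro p hp hμ
    simp only [Bool.and_eq_true, Bool.not_eq_true'] at hμ
    obtain ⟨hμ1, hμ2⟩ := hμ
    obtain ⟨-, v2, -, -, -, -, v7, -⟩ := hC L3 Γ (big R) (big R) s c c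
    obtain ⟨-, -, -, -, -, w6, -, -⟩ := hC L3 Γ (fun _ u => b u) (big R) s c c
    obtain ⟨p1, p2⟩ := v2 _ hμ1
    rcases w6 _ p1 p2 with h | ⟨s', E, u, hAt, q1, q2, hb⟩
    · rw [h] at hμ2
      exact absurd hμ2 (by simp)
    · have hb' : b u = true := hb
      have hlt : u.length < R := by
        by_contra hcon
        push Not at hcon
        have := v7 s' E u (3 * n + p) hAt q1 q2 (by simp [big, hcon])
        rw [this] at hμ1
        exact absurd hμ1 (by simp)
      rw [hF, Finset.mem_union]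
      by_cases h3 : 3 * n ≤ s'
      · right
        rw [Finset.mem_biUnion]
        refine ⟨E, Finset.mem_univ _, ?_⟩
        have hmem : s' ∈ St E := by
          rw [hSt]
          exact ⟨u, hAt, h3, hlt, hb'⟩
        have hinf : sInf (St E) ∈ St E := Nat.sInf_mem ⟨s', hmem⟩
        have hle : sInf (St E) ≤ s' := Nat.sInf_le hmem
        have hinf' : ∃ u, At s c (sInf (St E)) E u ∧ 3 * n ≤ sInf (St E) ∧
            u.length < R ∧ b u = true := by
          rw [hSt] at hinf ⊢
          exact hinf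
        obtain ⟨u₀, h01, h02, -, h04⟩ := hinf'
        have := key E _ s' u₀ u h01 hAt h02 hle h04
        rw [Finset.mem_Ico]
        omega
      · left
        rw [Finset.mem_range]
        omega
  refine hmain.trans ?_
  have : (F.card : ℤ) ≤ (R : ℤ) + k * (2 * R) := by exact_mod_cast hFc
  linarith

end Pool.Agent.Z3.H20
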